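import Pool.Agent.Helper23.Hyper.Bridge

/-!
# Sections of the box for vectors composed of blocks

If the entries of a real vector are grouped into blocks `b j • D j` with integer vectors `D j`,
the number of points of `{-2, …, 2}^n` on a hyperplane is bounded by a product over the blocks.
-/

open Finset

namespace Pool.Agent.Helper19.Blocks

open Pool.Agent.Helper23.Hyper

/-- Counting by cells: blocks version. -/
theorem core {J : Type*} [Fintype J] [DecidableEq J] (l : J → ℕ) (D : ∀ j, Fin (l j) → ℤ)
    (b : J → ℝ)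
    (hadm : ∀ x : ∀ j, Fin (l j) → ℤ, (∀ j i, -1 ≤ x j i ∧ x j i ≤ 1) →
      ∑ j, b j * ((∑ i, D j i * x j i : ℤ) : ℝ) = 0 → ∀ j i, x j i = 0)
    (Z : J → Finset ℤ)
    (hZ : ∀ j (x : Fin (l j) → ℤ), (∀ i, -2 ≤ x i ∧ x i ≤ 2) → ∃ z ∈ Z j,
      ∃ ε : Fin (l j) → ℤ, (∀ i, 0 ≤ ε i ∧ ε i ≤ 1) ∧
        ∑ i, D j i * x i = z + ∑ i, D j i * ε i)
    (q : J → ℕ) (hq : ∀ j T, secCount (D j) T ≤ q j) (T : ℝ) :
    ((Fintype.piFinset (fun j => Fintype.piFinset (fun _ : Fin (l j) => Icc (-2 : ℤ) 2))).filter
      (fun x => ∑ j, b j * ((∑ i, D j i * x j i : ℤ) : ℝ) = T)).card ≤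
      (∏ j, q j) * ∏ j, (Z j).card := by
  classical
  choose! z hz ε hε hsum using hZ
  rw [← Fintype.card_piFinset]
  apply Finset.card_le_mul_card_image_of_maps_to (f := fun x j => z j (x j))
  · intro x hx
    rw [mem_filter, Fintype.mem_piFinset] at hx
    rw [Fintype.mem_piFinset]
    intro j
    apply hz
    intro i
    have := Fintype.mem_piFinset.mp (hx.1 j) i
    rwa [mem_Icc] at this
  · intro c _
    rcases Finset.eq_empty_or_nonempty (((Fintype.piFinset
        (fun j => Fintype.piFinset (fun _ : Fin (l j) => Icc (-2 : ℤ) 2))).filter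
        (fun x => ∑ j, b j * ((∑ i, D j i * x j i : ℤ) : ℝ) = T)).filter
        (fun x => (fun j => z j (x j)) = c)) with h0 | ⟨x0, hx0⟩
    · rw [h0]; simp
    · rw [mem_filter, mem_filter, Fintype.mem_piFinset] at hx0
      obtain ⟨⟨hx0, hT0⟩, hc0⟩ := hx0
      have d0 : ∀ j i, -2 ≤ x0 j i ∧ x0 j i ≤ 2 := by
        intro j i
        have := Fintype.mem_piFinset.mp (hx0 j) i
        rwa [mem_Icc] at this
      calc _ ≤ (Fintype.piFinset (fun j => (Fintype.piFinset
            (fun _ : Fin (l j) => Icc (-2 : ℤ) 2)).filter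
            (fun y => ∑ i, D j i * y i = ∑ i, D j i * x0 j i))).card := by
            apply card_le_card
            intro x hx
            rw [mem_filter, mem_filter, Fintype.mem_piFinset] at hx
            obtain ⟨⟨hx, hT⟩, hc⟩ := hx
            have d1 : ∀ j i, -2 ≤ x j i ∧ x j i ≤ 2 := by
              intro j i
              have := Fintype.mem_piFinset.mp (hx j) i
              rwa [mem_Icc] at this
            have hzz : ∀ j, z j (x j) = z j (x0 j) := fun j => by
              have h1 : z j (x j) = c j := congrFun hc j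
              have h2 : z j (x0 j) = c j := congrFun hc0 j
              rw [h1, h2]
            have hdiff : ∀ j, (∑ i, D j i * x j i) - ∑ i, D j i * x0 j i =
                ∑ i, D j i * (ε j (x j) i - ε j (x0 j) i) := by
              intro j
              rw [hsum j (x j) (d1 j), hsum j (x0 j) (d0 j), hzz j]
              simp only [mul_sub, sum_sub_distrib]
              ring
            have hkey := hadm (fun j i => ε j (x j) i - ε j (x0 j) i) (by
                intro j i
                have h1 := hε j (x j) (d1 j) i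
                have h2 := hε j (x0 j) (d0 j) i
                constructor <;> [omega; omega]) (by
                have : ∀ j, b j * ((∑ i, D j i * (ε j (x j) i - ε j (x0 j) i) : ℤ) : ℝ) =
                    b j * ((∑ i, D j i * x j i : ℤ) : ℝ) -
                      b j * ((∑ i, D j i * x0 j i : ℤ) : ℝ) := by
                  intro j
                  rw [← hdiff j, Int.cast_sub, mul_sub]
                rw [sum_congr rfl (fun j _ => this j), sum_sub_distrib, hT, hT0, sub_self])
            rw [Fintype.mem_piFinset]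
            intro j
            rw [mem_filter]
            refine ⟨hx j, ?_⟩
            have h1 := hdiff j
            have h2 : ∑ i, D j i * (ε j (x j) i - ε j (x0 j) i) = 0 := by
              apply sum_eq_zero
              intro i _
              rw [hkey j i, mul_zero]
            linarith
        _ = ∏ j, secCount (D j) (∑ i, D j i * x0 j i) := by
            rw [Fintype.card_piFinset]
            rfl
        _ ≤ ∏ j, q j := prod_le_prod' (fun j _ => hq j _)

/-- Counting by cells for a real vector whose entries are grouped into blocks. -/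
theorem blocks_le {J : Type*} [Fintype J] [DecidableEq J] {n : ℕ} (a : Fin n → ℝ)
    (hadm : ∀ x ∈ Fintype.piFinset (fun _ : Fin n => Finset.Icc (-1 : ℤ) 1),
      ∑ i, a i * (x i : ℝ) = 0 → x = 0)
    (l : J → ℕ) (D : ∀ j, Fin (l j) → ℤ) (b : J → ℝ) (e : (Σ j, Fin (l j)) ≃ Fin n)
    (he : ∀ j i, a (e ⟨j, i⟩) = b j * (D j i : ℝ))
    (Z : J → Finset ℤ)
    (hZ : ∀ j (x : Fin (l j) → ℤ), (∀ i, -2 ≤ x i ∧ x i ≤ 2) → ∃ z ∈ Z j,
      ∃ ε : Fin (l j) → ℤ, (∀ i, 0 ≤ ε i ∧ ε i ≤ 1) ∧
        ∑ i, D j i * x i = z + ∑ i, D j i * ε i)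
    (q : J → ℕ) (hq : ∀ j T, secCount (D j) T ≤ q j) (T : ℝ) :
    ((Fintype.piFinset (fun _ : Fin n => Finset.Icc (-2 : ℤ) 2)).filter
      (fun x => ∑ i, a i * (x i : ℝ) = T)).card ≤ (∏ j, q j) * ∏ j, (Z j).card := by
  classical
  have hs : ∀ x : Fin n → ℤ, ∑ i, a i * (x i : ℝ) =
      ∑ j, b j * ((∑ i, D j i * x (e ⟨j, i⟩) : ℤ) : ℝ) := by
    intro x
    rw [← e.sum_comp, Fintype.sum_sigma]
    apply sum_congr rfl
    intro j _
    rw [Int.cast_sum, mul_sum]
    apply sum_congr rfl
    intro i _
    rw [he, Int.cast_mul]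
    ring
  refine le_trans ?_ (core l D b ?_ Z hZ q hq T)
  · apply Finset.card_le_card_of_injOn (fun x j i => x (e ⟨j, i⟩))
    · intro x hx
      rw [mem_coe, mem_filter, Fintype.mem_piFinset] at hx
      rw [mem_coe, mem_filter, Fintype.mem_piFinset]
      refine ⟨fun j => Fintype.mem_piFinset.mpr (fun i => hx.1 _), ?_⟩
      rw [← hs]; exact hx.2
    · intro x _ y _ hxy
      funext i
      obtain ⟨⟨j, k⟩, rfl⟩ := e.surjective i
      exact congrFun (congrFun hxy j) k
  · intro x hx h0 j i
    have := hadm (fun i => x (e.symm i).1 (e.symm i).2) (by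
      rw [Fintype.mem_piFinset]
      intro i
      rw [mem_Icc]
      exact hx _ _) (by
      rw [hs, ← h0]
      apply sum_congr rfl
      intro j _
      congr 2
      apply sum_congr rfl
      intro i _
      rw [Equiv.symm_apply_apply])
    have h2 : x (e.symm (e ⟨j, i⟩)).1 (e.symm (e ⟨j, i⟩)).2 = 0 := congrFun this (e ⟨j, i⟩)
    rw [Equiv.symm_apply_apply] at h2
    exact h2

end Pool.Agent.Helper19.Blocks
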