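import Pool.Agent.Helper19.Blocks.Core

/-!
# Blocks with a perturbation of low complexity

The entries are `b j * D j i + ∑ m, u j i m * g m` with few reals `g m` and small integers `u`.
-/

open Finset

namespace Pool.Agent.Helper19.Blocks

open Pool.Agent.Helper23.Hyper

/-- Bounds for a sum of integers with digits `-3, …, 2`. -/
theorem digit_bounds {ι : Type*} (s : Finset ι) (u d : ι → ℤ) (hd : ∀ i ∈ s, -3 ≤ d i ∧ d i ≤ 2) :
    -(∑ i ∈ s, (if 0 < u i then 3 else 2) * |u i|) ≤ ∑ i ∈ s, u i * d i ∧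
      ∑ i ∈ s, u i * d i ≤ 5 * (∑ i ∈ s, |u i|) - ∑ i ∈ s, (if 0 < u i then 3 else 2) * |u i| := by
  constructor
  · rw [← sum_neg_distrib]
    apply sum_le_sum
    intro i hi
    have h1 := hd i hi
    split_ifs with h
    · rw [abs_of_pos h]; nlinarith
    · rw [abs_of_nonpos (not_lt.mp h)]; nlinarith [not_lt.mp h]
  · rw [mul_sum, ← sum_sub_distrib]
    apply sum_le_sum
    intro i hi
    have h1 := hd i hi
    split_ifs with h
    · rw [abs_of_pos h]; nlinarith
    · rw [abs_of_nonpos (not_lt.mp h)]; nlinarith [not_lt.mp h]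

/-- Counting by cells: blocks version with a perturbation. -/
theorem core2 {J : Type*} [Fintype J] [DecidableEq J] (l : J → ℕ) (D : ∀ j, Fin (l j) → ℤ)
    (b : J → ℝ) {M : ℕ} (g : Fin M → ℝ) (u : ∀ j, Fin (l j) → Fin M → ℤ)
    (hadm : ∀ x : ∀ j, Fin (l j) → ℤ, (∀ j i, -1 ≤ x j i ∧ x j i ≤ 1) →
      ∑ j, b j * ((∑ i, D j i * x j i : ℤ) : ℝ) +
        ∑ m, g m * ((∑ j, ∑ i, u j i m * x j i : ℤ) : ℝ) = 0 → ∀ j i, x j i = 0)
    (Z : J → Finset ℤ)
    (hZ : ∀ j (x : Fin (l j) → ℤ), (∀ i, -2 ≤ x i ∧ x i ≤ 2) → ∃ z ∈ Z j,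
      ∃ ε : Fin (l j) → ℤ, (∀ i, 0 ≤ ε i ∧ ε i ≤ 1) ∧
        ∑ i, D j i * x i = z + ∑ i, D j i * ε i)
    (q : J → ℕ) (hq : ∀ j T, secCount (D j) T ≤ q j) (T : ℝ) :
    ((Fintype.piFinset (fun j => Fintype.piFinset (fun _ : Fin (l j) => Icc (-2 : ℤ) 2))).filter
      (fun x => ∑ j, b j * ((∑ i, D j i * x j i : ℤ) : ℝ) +
        ∑ m, g m * ((∑ j, ∑ i, u j i m * x j i : ℤ) : ℝ) = T)).card ≤
      (∏ j, q j) * ((∏ j, (Z j).card) * ∏ m, (5 * ∑ j, ∑ i, (u j i m).natAbs + 1)) := by
  classical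
  choose! z hz ε hε hsum using hZ
  set lo : Fin M → ℤ := fun m =>
    -(∑ p : (Σ j, Fin (l j)), (if 0 < u p.1 p.2 m then 3 else 2) * |u p.1 p.2 m|) with hlo
  set hi : Fin M → ℤ := fun m => 5 * (∑ p : (Σ j, Fin (l j)), |u p.1 p.2 m|) + lo m with hhi
  have hcardI : ∀ m, (Icc (lo m) (hi m)).card = 5 * ∑ j, ∑ i, (u j i m).natAbs + 1 := by
    intro m
    rw [Int.card_Icc]
    have h1 : (∑ p : (Σ j, Fin (l j)), |u p.1 p.2 m|) =
        ((∑ j, ∑ i, (u j i m).natAbs : ℕ) : ℤ) := by
      rw [Fintype.sum_sigma]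
      push_cast
      rfl
    rw [hhi]
    simp only
    rw [h1]
    omega
  set tau : (∀ j, Fin (l j) → ℤ) → Fin M → ℤ := fun x m =>
    ∑ j, ∑ i, u j i m * (x j i - ε j (x j) i) with htau
  have hcard : (∏ j, (Z j).card) * ∏ m, (5 * ∑ j, ∑ i, (u j i m).natAbs + 1) =
      ((Fintype.piFinset Z) ×ˢ (Fintype.piFinset (fun m => Icc (lo m) (hi m)))).card := by
    rw [card_product, Fintype.card_piFinset, Fintype.card_piFinset]
    congr 1
    apply prod_congr rfl
    intro m _
    rw [hcardI]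
  rw [hcard]
  apply Finset.card_le_mul_card_image_of_maps_to
    (f := fun x => ((fun j => z j (x j)), tau x))
  · intro x hx
    rw [mem_filter, Fintype.mem_piFinset] at hx
    have d1 : ∀ j i, -2 ≤ x j i ∧ x j i ≤ 2 := by
      intro j i
      have := Fintype.mem_piFinset.mp (hx.1 j) i
      rwa [mem_Icc] at this
    rw [mem_product, Fintype.mem_piFinset, Fintype.mem_piFinset]
    refine ⟨fun j => hz j _ (d1 j), fun m => ?_⟩
    rw [mem_Icc]
    have h1 := digit_bounds (univ : Finset (Σ j, Fin (l j))) (fun p => u p.1 p.2 m)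
      (fun p => x p.1 p.2 - ε p.1 (x p.1) p.2) (by
        intro p _
        have e1 := d1 p.1 p.2
        have e2 := hε p.1 (x p.1) (d1 p.1) p.2
        constructor <;> [omega; omega])
    have h2 : tau x m = ∑ p : (Σ j, Fin (l j)), u p.1 p.2 m * (x p.1 p.2 - ε p.1 (x p.1) p.2) := by
      rw [htau, Fintype.sum_sigma]
    show lo m ≤ tau x m ∧ tau x m ≤ hi m
    rw [h2, hhi, hlo]
    refine ⟨h1.1, ?_⟩
    have h3 := h1.2
    simp only
    linarith
  · intro c _
    rcases Finset.eq_empty_or_nonempty (((Fintype.piFinset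
        (fun j => Fintype.piFinset (fun _ : Fin (l j) => Icc (-2 : ℤ) 2))).filter
        (fun x => ∑ j, b j * ((∑ i, D j i * x j i : ℤ) : ℝ) +
          ∑ m, g m * ((∑ j, ∑ i, u j i m * x j i : ℤ) : ℝ) = T)).filter
        (fun x => ((fun j => z j (x j)), tau x) = c)) with h0 | ⟨x0, hx0⟩
    · rw [h0]; simp
    · rw [mem_filter, mem_filter, Fintype.mem_piFinset] at hx0
      obtain ⟨⟨hx0, hT0⟩, hc0⟩ := hx0
      have d0 : ∀ j i, -2 ≤ x0 j i ∧ x0 j i ≤ 2 := by
        intro j i
        have := Fintype.mem_piFinset.mp (hx0 j) i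
        rwa [mem_Icc] at this
      calc _ ≤ (Fintype.piFinset (fun j => (Fintype.piFinset
            (fun _ : Fin (l j) => Icc (-2 : ℤ) 2)).filter
            (fun y => ∑ i, D j i * y i = ∑ i, D j i * x0 j i))).card := by
            apply card_le_card
            intro x hx
            rw [mem_filter, mem_filter, Fintype.mem_piFinset] at hx
            obtain ⟨⟨hx, hT⟩, hc⟩ := hx
            have d1 : ∀ j i, -2 ≤ x j i ∧ x j i ≤ 2 := by
              intro j i
              have := Fintype.mem_piFinset.mp (hx j) i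
              rwa [mem_Icc] at this
            have hcc := hc.trans hc0.symm
            have hzz : ∀ j, z j (x j) = z j (x0 j) := fun j => congrFun (Prod.mk.inj hcc).1 j
            have htt : ∀ m, tau x m = tau x0 m := fun m => congrFun (Prod.mk.inj hcc).2 m
            have hdiff : ∀ j, (∑ i, D j i * x j i) - ∑ i, D j i * x0 j i =
                ∑ i, D j i * (ε j (x j) i - ε j (x0 j) i) := by
              intro j
              rw [hsum j (x j) (d1 j), hsum j (x0 j) (d0 j), hzz j]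
              simp only [mul_sub, sum_sub_distrib]
              ring
            have hdiff2 : ∀ m, (∑ j, ∑ i, u j i m * x j i) - ∑ j, ∑ i, u j i m * x0 j i =
                ∑ j, ∑ i, u j i m * (ε j (x j) i - ε j (x0 j) i) := by
              intro m
              have h1 := htt m
              rw [htau] at h1
              simp only [mul_sub, sum_sub_distrib] at h1 ⊢
              linarith
            have hkey := hadm (fun j i => ε j (x j) i - ε j (x0 j) i) (by
                intro j i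
                have h1 := hε j (x j) (d1 j) i
                have h2 := hε j (x0 j) (d0 j) i
                constructor <;> [omega; omega]) (by
                have h1 : ∀ j, b j * ((∑ i, D j i * (ε j (x j) i - ε j (x0 j) i) : ℤ) : ℝ) =
                    b j * ((∑ i, D j i * x j i : ℤ) : ℝ) -
                      b j * ((∑ i, D j i * x0 j i : ℤ) : ℝ) := by
                  intro j
                  rw [← hdiff j, Int.cast_sub, mul_sub]
                have h2 : ∀ m, g m *
                    ((∑ j, ∑ i, u j i m * (ε j (x j) i - ε j (x0 j) i) : ℤ) : ℝ) =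
                    g m * ((∑ j, ∑ i, u j i m * x j i : ℤ) : ℝ) -
                      g m * ((∑ j, ∑ i, u j i m * x0 j i : ℤ) : ℝ) := by
                  intro m
                  rw [← hdiff2 m, Int.cast_sub, mul_sub]
                rw [sum_congr rfl (fun j _ => h1 j), sum_congr rfl (fun m _ => h2 m),
                  sum_sub_distrib, sum_sub_distrib]
                linarith)
            rw [Fintype.mem_piFinset]
            intro j
            rw [mem_filter]
            refine ⟨hx j, ?_⟩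
            have h1 := hdiff j
            have h2 : ∑ i, D j i * (ε j (x j) i - ε j (x0 j) i) = 0 := by
              apply sum_eq_zero
              intro i _
              rw [hkey j i, mul_zero]
            linarith
        _ = ∏ j, secCount (D j) (∑ i, D j i * x0 j i) := by
            rw [Fintype.card_piFinset]
            rfl
        _ ≤ ∏ j, q j := prod_le_prod' (fun j _ => hq j _)

/-- Counting by cells for a real vector whose entries are grouped into blocks, with a
perturbation. -/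
theorem blocks_le2 {J : Type*} [Fintype J] [DecidableEq J] {n : ℕ} (a : Fin n → ℝ)
    (hadm : ∀ x ∈ Fintype.piFinset (fun _ : Fin n => Finset.Icc (-1 : ℤ) 1),
      ∑ i, a i * (x i : ℝ) = 0 → x = 0)
    (l : J → ℕ) (D : ∀ j, Fin (l j) → ℤ) (b : J → ℝ) (e : (Σ j, Fin (l j)) ≃ Fin n)
    {M : ℕ} (g : Fin M → ℝ) (u : Fin n → Fin M → ℤ)
    (he : ∀ j i, a (e ⟨j, i⟩) = b j * (D j i : ℝ) + ∑ m, (u (e ⟨j, i⟩) m : ℝ) * g m)
    (Z : J → Finset ℤ)
    (hZ : ∀ j (x : Fin (l j) → ℤ), (∀ i, -2 ≤ x i ∧ x i ≤ 2) → ∃ z ∈ Z j,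
      ∃ ε : Fin (l j) → ℤ, (∀ i, 0 ≤ ε i ∧ ε i ≤ 1) ∧
        ∑ i, D j i * x i = z + ∑ i, D j i * ε i)
    (q : J → ℕ) (hq : ∀ j T, secCount (D j) T ≤ q j) (T : ℝ) :
    ((Fintype.piFinset (fun _ : Fin n => Finset.Icc (-2 : ℤ) 2)).filter
      (fun x => ∑ i, a i * (x i : ℝ) = T)).card ≤
      (∏ j, q j) * ((∏ j, (Z j).card) * ∏ m, (5 * ∑ k, (u k m).natAbs + 1)) := by
  classical
  have hs : ∀ x : Fin n → ℤ, ∑ i, a i * (x i : ℝ) =
      ∑ j, b j * ((∑ i, D j i * x (e ⟨j, i⟩) : ℤ) : ℝ) +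
        ∑ m, g m * ((∑ j, ∑ i, u (e ⟨j, i⟩) m * x (e ⟨j, i⟩) : ℤ) : ℝ) := by
    intro x
    have h1 : ∀ m, g m * ((∑ j, ∑ i, u (e ⟨j, i⟩) m * x (e ⟨j, i⟩) : ℤ) : ℝ) =
        ∑ j, ∑ i, g m * ((u (e ⟨j, i⟩) m : ℝ) * (x (e ⟨j, i⟩) : ℝ)) := by
      intro m
      push_cast
      rw [mul_sum]
      apply sum_congr rfl
      intro j _
      rw [mul_sum]
    rw [← e.sum_comp, Fintype.sum_sigma, sum_congr rfl (fun m _ => h1 m), sum_comm,
      ← sum_add_distrib]
    apply sum_congr rfl
    intro j _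
    rw [sum_comm, Int.cast_sum, mul_sum, ← sum_add_distrib]
    apply sum_congr rfl
    intro i _
    rw [he, Int.cast_mul, add_mul, sum_mul]
    congr 1
    · ring
    · apply sum_congr rfl
      intro m _
      ring
  have hu : ∀ m, ∑ k, (u k m).natAbs = ∑ j, ∑ i, (u (e ⟨j, i⟩) m).natAbs := by
    intro m
    rw [← e.sum_comp, Fintype.sum_sigma]
  simp only [hu]
  refine le_trans ?_ (core2 l D b g (fun j i m => u (e ⟨j, i⟩) m) ?_ Z hZ q hq T)
  · apply Finset.card_le_card_of_injOn (fun x j i => x (e ⟨j, i⟩))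
    · intro x hx
      rw [mem_coe, mem_filter, Fintype.mem_piFinset] at hx
      rw [mem_coe, mem_filter, Fintype.mem_piFinset]
      refine ⟨fun j => Fintype.mem_piFinset.mpr (fun i => hx.1 _), ?_⟩
      rw [← hs]; exact hx.2
    · intro x _ y _ hxy
      funext i
      obtain ⟨⟨j, k⟩, rfl⟩ := e.surjective i
      exact congrFun (congrFun hxy j) k
  · intro x hx h0 j i
    have hX : ∀ j i, x (e.symm (e ⟨j, i⟩)).1 (e.symm (e ⟨j, i⟩)).2 = x j i := by
      intro j i
      rw [Equiv.symm_apply_apply]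
    have := hadm (fun i => x (e.symm i).1 (e.symm i).2) (by
      rw [Fintype.mem_piFinset]
      intro i
      rw [mem_Icc]
      exact hx _ _) (by
      rw [hs, ← h0]
      simp only [hX])
    have h2 : x (e.symm (e ⟨j, i⟩)).1 (e.symm (e ⟨j, i⟩)).2 = 0 := congrFun this (e ⟨j, i⟩)
    rw [hX] at h2
    exact h2

end Pool.Agent.Helper19.Blocks
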