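import Pool.Agent.Helper19.Blocks.Core

/-!
# Dense blocks

An integer vector with distinct `2`-adic valuations and absolute sum `W`: its sums with digits
`-2, …, 2` are covered by at most `9 W / 2^l` translates of its subset sums.
-/

open Finset

namespace Pool.Agent.Helper19.Blocks

open Pool.Agent.Helper23.Hyper

/-- One vector of each valuation: the subset sums represent all residues. -/
theorem residues (w : ℕ → ℤ) (hw : ∀ g, ∃ m : ℤ, w g = 2 ^ g * (2 * m + 1)) (y : ℤ) :
    ∀ L : ℕ, ∃ δ : ℕ → ℤ, (∀ g, δ g = 0 ∨ δ g = 1) ∧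
      (2 : ℤ) ^ L ∣ y - ∑ g ∈ range L, w g * δ g := by
  intro L
  induction L with
  | zero => exact ⟨fun _ => 0, fun _ => Or.inl rfl, by simp⟩
  | succ L ih =>
    obtain ⟨δ, hδ, m, hm⟩ := ih
    obtain ⟨u, hu⟩ := hw L
    have hsum : ∀ v : ℤ, ∑ g ∈ range (L + 1), w g * (Function.update δ L v) g =
        ∑ g ∈ range L, w g * δ g + w L * v := by
      intro v
      rw [sum_range_succ, Function.update_self]
      congr 1
      apply sum_congr rfl
      intro g hg
      rw [Function.update_of_ne]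
      have := mem_range.mp hg
      omega
    rcases Int.emod_two_eq_zero_or_one m with h | h
    · refine ⟨Function.update δ L 0, ?_, ?_⟩
      · intro g
        by_cases hg : g = L
        · rw [hg, Function.update_self]; exact Or.inl rfl
        · rw [Function.update_of_ne hg]; exact hδ g
      · rw [hsum, mul_zero, add_zero, hm]
        obtain ⟨k, rfl⟩ : ∃ k, m = 2 * k := ⟨m / 2, by omega⟩
        exact ⟨k, by ring⟩
    · refine ⟨Function.update δ L 1, ?_, ?_⟩
      · intro g
        by_cases hg : g = L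
        · rw [hg, Function.update_self]; exact Or.inr rfl
        · rw [Function.update_of_ne hg]; exact hδ g
      · rw [hsum, mul_one, ← sub_sub, hm, hu]
        obtain ⟨k, rfl⟩ : ∃ k, m = 2 * k + 1 := ⟨m / 2, by omega⟩
        exact ⟨k - u, by ring⟩

theorem val_form (d : ℤ) (hd : d ≠ 0) : ∃ m : ℤ, d = 2 ^ (padicValInt 2 d) * (2 * m + 1) := by
  have hf : Fact (Nat.Prime 2) := ⟨Nat.prime_two⟩
  obtain ⟨u, hu⟩ : (2 : ℤ) ^ (padicValInt 2 d) ∣ d := by
    have := (padicValInt_dvd_iff (p := 2) (padicValInt 2 d) d).mpr (Or.inr le_rfl)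
    exact_mod_cast this
  have hu2 : u % 2 = 1 := by
    by_contra h
    obtain ⟨k, rfl⟩ : ∃ k, u = 2 * k := ⟨u / 2, by omega⟩
    have h1 : ((2 : ℤ) ^ (padicValInt 2 d + 1)) ∣ d := ⟨k, by rw [pow_succ]; linarith [hu]⟩
    have h2 := (padicValInt_dvd_iff (p := 2) (padicValInt 2 d + 1) d).mp (by exact_mod_cast h1)
    rcases h2 with h2 | h2
    · exact hd h2
    · omega
  exact ⟨u / 2, by rw [show 2 * (u / 2) + 1 = u by omega]; exact hu⟩

theorem geom : ∀ L : ℕ, ∑ g ∈ range L, (2 : ℤ) ^ g = 2 ^ L - 1 := by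
  intro L
  induction L with
  | zero => simp
  | succ L ih => rw [sum_range_succ, ih, pow_succ]; ring

/-- Covering number of a block with distinct `2`-adic valuations. -/
theorem dense_cover {l : ℕ} (hl : 0 < l) (D : Fin l → ℤ) (h0 : ∀ i, D i ≠ 0)
    (hinj : Function.Injective (fun i => padicValInt 2 (D i))) :
    ∃ Z : Finset ℤ, (∀ x : Fin l → ℤ, (∀ i, -2 ≤ x i ∧ x i ≤ 2) → ∃ z ∈ Z,
      ∃ ε : Fin l → ℤ, (∀ i, 0 ≤ ε i ∧ ε i ≤ 1) ∧
        ∑ i, D i * x i = z + ∑ i, D i * ε i) ∧
      (Z.card : ℤ) * 2 ^ l ≤ 9 * ∑ i, |D i| := by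
  classical
  set v : Fin l → ℕ := fun i => padicValInt 2 (D i) with hv
  have hne : (univ : Finset (Fin l)).Nonempty := ⟨⟨0, hl⟩, mem_univ _⟩
  obtain ⟨i0, -, hi0⟩ := exists_max_image univ v hne
  set L := v i0 + 1 with hL
  have hvL : ∀ i, v i < L := fun i => Nat.lt_succ_of_le (hi0 i (mem_univ i))
  set W := ∑ i, |D i| with hW
  -- `2^L ≤ 2 W`
  have h2L : (2 : ℤ) ^ L ≤ 2 * W := by
    obtain ⟨m, hm⟩ := val_form (D i0) (h0 i0)
    have h1 : (2 : ℤ) ^ (v i0) ≤ |D i0| := by
      rw [hm, abs_mul, abs_of_pos (by positivity : (0 : ℤ) < 2 ^ (padicValInt 2 (D i0)))]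
      have : 1 ≤ |2 * m + 1| := Int.one_le_abs (by omega)
      have h2 : (0 : ℤ) < 2 ^ (padicValInt 2 (D i0)) := by positivity
      calc (2 : ℤ) ^ (v i0) = 2 ^ (padicValInt 2 (D i0)) * 1 := by rw [mul_one]
        _ ≤ _ := mul_le_mul_of_nonneg_left this h2.le
    have h2 : |D i0| ≤ W := single_le_sum (f := fun i => |D i|) (fun i _ => abs_nonneg _) (mem_univ i0)
    rw [hL, pow_succ]
    linarith
  -- the completed family
  set w : ℕ → ℤ := fun g => if h : ∃ i, v i = g then D h.choose else 2 ^ g with hw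
  have hwv : ∀ i, w (v i) = D i := by
    intro i
    have h : ∃ i', v i' = v i := ⟨i, rfl⟩
    rw [hw]
    simp only [dif_pos h]
    rw [hinj h.choose_spec]
  have hw' : ∀ g, (¬ ∃ i, v i = g) → w g = 2 ^ g := by
    intro g hg
    rw [hw]
    simp only [dif_neg hg]
  have hwodd : ∀ g, ∃ m : ℤ, w g = 2 ^ g * (2 * m + 1) := by
    intro g
    by_cases h : ∃ i, v i = g
    · obtain ⟨i, rfl⟩ := h
      rw [hwv]
      exact val_form _ (h0 i)
    · rw [hw' g h]; exact ⟨0, by ring⟩
  set S := univ.image v with hS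
  set M := range L \ S with hM
  have hSL : S ⊆ range L := by
    intro g hg
    rw [hS, mem_image] at hg
    obtain ⟨i, -, rfl⟩ := hg
    exact mem_range.mpr (hvL i)
  have hScard : S.card = l := by
    rw [hS, card_image_of_injective _ hinj, card_univ, Fintype.card_fin]
  have hMcard : M.card = L - l := by
    rw [hM, card_sdiff_of_subset hSL, card_range, hScard]
  have hlL : l ≤ L := by
    have := card_le_card hSL
    rwa [card_range, hScard] at this
  set A := ∑ i, (if 0 < D i then 3 else 2) * |D i| with hA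
  set t0 := -((A + 2 ^ L - 1) / 2 ^ L) with ht0
  set t1 := (5 * W - A) / 2 ^ L with ht1
  have h2pos : (0 : ℤ) < 2 ^ L := by positivity
  refine ⟨(M.powerset ×ˢ Icc t0 t1).image (fun p => ∑ g ∈ p.1, (2 : ℤ) ^ g + 2 ^ L * p.2), ?_, ?_⟩
  · intro x hx
    obtain ⟨δ, hδ, t, ht⟩ := residues w hwodd (∑ i, D i * x i) L
    have hsplit : ∑ g ∈ range L, w g * δ g =
        ∑ i, D i * δ (v i) + ∑ g ∈ M.filter (fun g => δ g = 1), (2 : ℤ) ^ g := by
      rw [← sum_sdiff hSL, add_comm]
      congr 1
      · rw [hS, sum_image (fun i _ j _ h => hinj h)]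
        apply sum_congr rfl
        intro i _
        rw [hwv]
      · rw [sum_filter]
        apply sum_congr rfl
        intro g hg
        have hg' : ¬ ∃ i, v i = g := by
          rintro ⟨i, rfl⟩
          rw [mem_sdiff] at hg
          exact hg.2 (mem_image_of_mem v (mem_univ i))
        rw [hw' g hg']
        rcases hδ g with h | h
        · rw [h]; simp
        · rw [h]; simp
    set γ := ∑ g ∈ M.filter (fun g => δ g = 1), (2 : ℤ) ^ g with hγ
    have hγ0 : 0 ≤ γ := sum_nonneg (fun g _ => by positivity)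
    have hγ1 : γ ≤ 2 ^ L - 1 := by
      have h1 : γ ≤ ∑ g ∈ range L, (2 : ℤ) ^ g := by
        apply sum_le_sum_of_subset_of_nonneg
        · intro g hg
          rw [mem_filter, hM, mem_sdiff] at hg
          exact hg.1.1
        · intro g _ _; positivity
      have h2 : ∑ g ∈ range L, (2 : ℤ) ^ g = 2 ^ L - 1 := geom L
      linarith
    have hy : ∑ i, D i * x i = γ + 2 ^ L * t + ∑ i, D i * δ (v i) := by
      rw [hsplit] at ht
      linarith
    refine ⟨γ + 2 ^ L * t, ?_, fun i => δ (v i), ?_, hy⟩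
    · rw [mem_image]
      refine ⟨(M.filter (fun g => δ g = 1), t), ?_, rfl⟩
      rw [mem_product, mem_powerset, mem_Icc]
      refine ⟨filter_subset _ _, ?_⟩
      -- bounds for `t`
      have hlow : -A ≤ ∑ i, D i * (x i - δ (v i)) := by
        rw [hA, ← sum_neg_distrib]
        apply sum_le_sum
        intro i _
        have h1 := hx i
        have h2 := hδ (v i)
        have h3 : -3 ≤ x i - δ (v i) ∧ x i - δ (v i) ≤ 2 := by
          rcases h2 with h2 | h2 <;> rw [h2] <;> constructor <;> omega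
        split_ifs with h
        · rw [abs_of_pos h]; nlinarith
        · have h' : D i < 0 := lt_of_le_of_ne (not_lt.mp h) (h0 i)
          rw [abs_of_neg h']; nlinarith
      have hupp : ∑ i, D i * (x i - δ (v i)) ≤ 5 * W - A := by
        rw [hA, hW, mul_sum, ← sum_sub_distrib]
        apply sum_le_sum
        intro i _
        have h1 := hx i
        have h2 := hδ (v i)
        have h3 : -3 ≤ x i - δ (v i) ∧ x i - δ (v i) ≤ 2 := by
          rcases h2 with h2 | h2 <;> rw [h2] <;> constructor <;> omega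
        split_ifs with h
        · rw [abs_of_pos h]; nlinarith
        · have h' : D i < 0 := lt_of_le_of_ne (not_lt.mp h) (h0 i)
          rw [abs_of_neg h']; nlinarith
      have hyy : ∑ i, D i * (x i - δ (v i)) = γ + 2 ^ L * t := by
        simp only [mul_sub, sum_sub_distrib]
        linarith
      constructor
      · show -((A + 2 ^ L - 1) / 2 ^ L) ≤ t
        have : -t ≤ (A + 2 ^ L - 1) / 2 ^ L := by
          rw [Int.le_ediv_iff_mul_le h2pos]
          nlinarith
        linarith
      · show t ≤ (5 * W - A) / 2 ^ L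
        rw [Int.le_ediv_iff_mul_le h2pos]
        nlinarith
    · intro i
      rcases hδ (v i) with h | h <;> simp only [h] <;> norm_num
  · -- the number of translates
    have h1 : ((M.powerset ×ˢ Icc t0 t1).image
        (fun p => ∑ g ∈ p.1, (2 : ℤ) ^ g + 2 ^ L * p.2)).card ≤ 2 ^ (L - l) * (t1 + 1 - t0).toNat := by
      refine card_image_le.trans ?_
      rw [card_product, card_powerset, hMcard, Int.card_Icc]
    have hW0 : 0 ≤ W := sum_nonneg (fun i _ => abs_nonneg _)
    have h2 : ((t1 + 1 - t0).toNat : ℤ) * 2 ^ L ≤ 9 * W := by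
      rcases le_or_gt (t1 + 1 - t0) 0 with h | h
      · rw [Int.toNat_of_nonpos h]
        simp only [Nat.cast_zero, zero_mul]
        linarith
      · rw [Int.toNat_of_nonneg h.le]
        have e1 : t1 * 2 ^ L ≤ 5 * W - A := Int.ediv_mul_le _ h2pos.ne'
        have e2 : (-t0) * 2 ^ L ≤ A + 2 ^ L - 1 := by
          rw [ht0, neg_neg]
          exact Int.ediv_mul_le _ h2pos.ne'
        nlinarith
    have h3 : (((M.powerset ×ˢ Icc t0 t1).image
        (fun p => ∑ g ∈ p.1, (2 : ℤ) ^ g + 2 ^ L * p.2)).card : ℤ) ≤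
        2 ^ (L - l) * ((t1 + 1 - t0).toNat : ℤ) := by exact_mod_cast h1
    calc _ ≤ (2 ^ (L - l) * ((t1 + 1 - t0).toNat : ℤ)) * 2 ^ l :=
          mul_le_mul_of_nonneg_right h3 (by positivity)
      _ = ((t1 + 1 - t0).toNat : ℤ) * 2 ^ L := by
          rw [show (2 : ℤ) ^ L = 2 ^ (L - l) * 2 ^ l by rw [← pow_add, Nat.sub_add_cancel hlL]]
          ring
      _ ≤ 9 * W := h2

/-- Vectors with distinct `2`-adic valuations are triangular. -/
theorem triangular_of_injective {l : ℕ} (D : Fin l → ℤ) (h0 : ∀ i, D i ≠ 0)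
    (hinj : Function.Injective (fun i => padicValInt 2 (D i))) : Triangular D := by
  refine ⟨h0, Tuple.sort (fun i => padicValInt 2 (D i)), fun i => ⟨2, Nat.prime_two, ?_⟩⟩
  intro j hij
  have h1 := Tuple.monotone_sort (fun i => padicValInt 2 (D i)) hij.le
  apply lt_of_le_of_ne h1
  intro h
  have := (Tuple.sort (fun i => padicValInt 2 (D i))).injective (hinj h)
  exact hij.ne this

end Pool.Agent.Helper19.Blocks
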