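import Pool.Agent.Helper23.Hyper.Perron

/-!
# An explicit bound for the extremal sequence
-/

namespace Pool.Agent.Helper19.Blocks

open Pool.Agent.Helper23.Hyper

/-- The quartic is increasing. -/
theorem factor_pos {x y : ℝ} (hx : 5 / 2 ≤ x) (hy : 5 / 2 ≤ y) :
    0 < x ^ 2 * (x - 2) + y ^ 2 * (y - 2) + x * y * (x + y - 2) - 2 * (x + y) + 2 := by
  have h1 : 0 ≤ x ^ 2 * (x - 2) := mul_nonneg (sq_nonneg _) (by linarith)
  have h2 : 0 ≤ y ^ 2 * (y - 2) := mul_nonneg (sq_nonneg _) (by linarith)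
  have h3 : 4 ≤ x * y := by nlinarith
  have h4 : 4 * (x + y - 2) ≤ x * y * (x + y - 2) :=
    mul_le_mul_of_nonneg_right h3 (by linarith)
  nlinarith

theorem quartic_sub (x y : ℝ) : (x ^ 4 - 2 * x ^ 3 - 2 * x ^ 2 + 2 * x - 1) -
    (y ^ 4 - 2 * y ^ 3 - 2 * y ^ 2 + 2 * y - 1) = (x - y) *
      (x ^ 2 * (x - 2) + y ^ 2 * (y - 2) + x * y * (x + y - 2) - 2 * (x + y) + 2) := by
  ring

theorem root_bounds {β : ℝ} (hβ : 5 / 2 ≤ β)
    (h4 : β ^ 4 = 2 * β ^ 3 + 2 * β ^ 2 - 2 * β + 1) : 2.538 < β ∧ β < 2.539 := by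
  constructor
  · by_contra h
    have h1 := quartic_sub 2.538 β
    have h2 := factor_pos (x := 2.538) (y := β) (by norm_num) hβ
    have h3 := mul_nonneg (sub_nonneg.mpr (not_lt.mp h)) h2.le
    rw [← h1] at h3
    norm_num at h3
    linarith
  · by_contra h
    have h1 := quartic_sub β 2.539
    have h2 := factor_pos (x := β) (y := 2.539) hβ (by norm_num)
    have h3 := mul_nonneg (sub_nonneg.mpr (not_lt.mp h)) h2.le
    rw [← h1] at h3
    norm_num at h3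
    linarith

section

variable {β : ℝ} (hβ : 5 / 2 ≤ β) (h4 : β ^ 4 = 2 * β ^ 3 + 2 * β ^ 2 - 2 * β + 1)

include hβ h4

theorem cone (m : ℕ) :
    2 * (β - 1) * (P (m + 4) : ℝ) ≤ β ^ (m + 4) ∧
    2 * (β - 1) * (Q (m + 4) : ℝ) ≤ β ^ (m + 4) * (β - 1) ∧
    2 * (β - 1) * (R (m + 4) : ℝ) ≤ β ^ (m + 4) * (β ^ 2 - 2 * β) ∧
    2 * (β - 1) * (S (m + 4) : ℝ) ≤ β ^ (m + 4) * (β ^ 3 - 2 * β ^ 2 - β) := by
  obtain ⟨hl, hu⟩ := root_bounds hβ h4
  induction m with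
  | zero =>
    have e1 : P (0 + 4) = 13 := by decide
    have e2 : Q (0 + 4) = 20 := by decide
    have e3 : R (0 + 4) = 18 := by decide
    have e4 : S (0 + 4) = 12 := by decide
    rw [e1, e2, e3, e4]
    have h2 : (6.441 : ℝ) ≤ β ^ 2 := by nlinarith
    have h44 : (41.48 : ℝ) ≤ β ^ 4 := by nlinarith
    have h5 : (1.365 : ℝ) ≤ β ^ 2 - 2 * β := by nlinarith
    have h6 : (0.926 : ℝ) ≤ β ^ 3 - 2 * β ^ 2 - β := by
      have : β ^ 3 - 2 * β ^ 2 - β = β * (β ^ 2 - 2 * β - 1) := by ring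
      rw [this]
      nlinarith
    push_cast
    refine ⟨?_, ?_, ?_, ?_⟩
    · nlinarith
    · nlinarith
    · nlinarith
    · nlinarith
  | succ m ih =>
    obtain ⟨i1, i2, i3, i4⟩ := ih
    rw [show m + 1 + 4 = m + 4 + 1 by ring, P_succ (m + 4), Q_succ (m + 4), R_succ (m + 4),
      S_succ (m + 4), pow_succ]
    push_cast
    have hS : 1 + (β ^ 2 - 2 * β) = β * (β ^ 3 - 2 * β ^ 2 - β) := by nlinarith
    generalize β ^ (m + 4) = X at i1 i2 i3 i4 ⊢
    generalize (P (m + 4) : ℝ) = p at i1 i2 i3 i4 ⊢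
    generalize (Q (m + 4) : ℝ) = q at i1 i2 i3 i4 ⊢
    generalize (R (m + 4) : ℝ) = r at i1 i2 i3 i4 ⊢
    generalize (S (m + 4) : ℝ) = s at i1 i2 i3 i4 ⊢
    refine ⟨?_, ?_, ?_, ?_⟩
    · calc 2 * (β - 1) * (p + q) = 2 * (β - 1) * p + 2 * (β - 1) * q := by ring
        _ ≤ X + X * (β - 1) := add_le_add i1 i2
        _ = X * β := by ring
    · calc 2 * (β - 1) * (p + q + r) =
          2 * (β - 1) * p + 2 * (β - 1) * q + 2 * (β - 1) * r := by ring
        _ ≤ X + X * (β - 1) + X * (β ^ 2 - 2 * β) := add_le_add (add_le_add i1 i2) i3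
        _ = X * β * (β - 1) := by ring
    · calc 2 * (β - 1) * (p + q + s) =
          2 * (β - 1) * p + 2 * (β - 1) * q + 2 * (β - 1) * s := by ring
        _ ≤ X + X * (β - 1) + X * (β ^ 3 - 2 * β ^ 2 - β) := add_le_add (add_le_add i1 i2) i4
        _ = X * β * (β ^ 2 - 2 * β) := by ring
    · calc 2 * (β - 1) * (p + r) = 2 * (β - 1) * p + 2 * (β - 1) * r := by ring
        _ ≤ X + X * (β ^ 2 - 2 * β) := add_le_add i1 i3
        _ = X * (1 + (β ^ 2 - 2 * β)) := by ring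
        _ = X * β * (β ^ 3 - 2 * β ^ 2 - β) := by rw [hS]; ring

/-- `d n ≤ β^n / 2`. -/
theorem two_Q_le (n : ℕ) (hn : 1 ≤ n) : 2 * (Q n : ℝ) ≤ β ^ n := by
  obtain ⟨hl, hu⟩ := root_bounds hβ h4
  rcases Nat.lt_or_ge n 4 with h | h
  · have e1 : Q 1 = 1 := by decide
    have e2 : Q 2 = 3 := by decide
    have e3 : Q 3 = 8 := by decide
    interval_cases n
    · rw [e1]; push_cast; linarith
    · rw [e2]; push_cast; nlinarith
    · rw [e3]; push_cast
      have : (6.441 : ℝ) ≤ β ^ 2 := by nlinarith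
      nlinarith
  · obtain ⟨m, rfl⟩ : ∃ m, n = m + 4 := ⟨n - 4, by omega⟩
    have h1 := (cone hβ h4 m).2.1
    have h2 : 0 < β - 1 := by linarith
    have h3 : (β - 1) * (2 * (Q (m + 4) : ℝ)) ≤ (β - 1) * β ^ (m + 4) := by linarith
    exact le_of_mul_le_mul_left h3 h2

/-- The sum of the four class maxima of a doubling chain. -/
theorem class_sum_le (l : ℕ) :
    ((R (l + 1) + Q (l + 1) + 2 * P (l + 1) : ℕ) : ℝ) ≤ 8 / 5 * β ^ (l + 1) := by
  obtain ⟨hl, hu⟩ := root_bounds hβ h4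
  have g2 : (6.441 : ℝ) ≤ β ^ 2 := by nlinarith
  rcases Nat.lt_or_ge l 3 with h | h
  · interval_cases l
    · have : R (0 + 1) + Q (0 + 1) + 2 * P (0 + 1) = 4 := by decide
      rw [this]; push_cast; norm_num; linarith
    · have : R (1 + 1) + Q (1 + 1) + 2 * P (1 + 1) = 10 := by decide
      rw [this]; push_cast; norm_num; linarith
    · have : R (2 + 1) + Q (2 + 1) + 2 * P (2 + 1) = 25 := by decide
      rw [this]; push_cast; norm_num; nlinarith
  · obtain ⟨m, rfl⟩ : ∃ m, l = m + 3 := ⟨l - 3, by omega⟩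
    obtain ⟨i1, i2, i3, i4⟩ := cone hβ h4 m
    rw [show m + 3 + 1 = m + 4 by ring]
    push_cast
    have h2 : 0 < β - 1 := by linarith
    have hp : 0 < β ^ (m + 4) := by positivity
    have h5 : (β ^ 2 - 2 * β) + (β - 1) + 2 ≤ 8 / 5 * (2 * (β - 1)) := by nlinarith
    have h6 : β ^ (m + 4) * ((β ^ 2 - 2 * β) + (β - 1) + 2) ≤
        β ^ (m + 4) * (8 / 5 * (2 * (β - 1))) := mul_le_mul_of_nonneg_left h5 hp.le
    have h7 : (2 * (β - 1)) * ((R (m + 4) : ℝ) + Q (m + 4) + 2 * P (m + 4)) ≤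
        (2 * (β - 1)) * (8 / 5 * β ^ (m + 4)) := by nlinarith
    exact le_of_mul_le_mul_left h7 (by linarith)

end

end Pool.Agent.Helper19.Blocks
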