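import Pool.Agent.Helper19.Blocks.Core2
import Pool.Agent.Helper19.Blocks.Dense
import Pool.Agent.Helper19.Blocks.Growth

/-!
# Sections for vectors composed of dense blocks
-/

open Finset

namespace Pool.Agent.Helper19.Blocks

open Pool.Agent.Helper23.Hyper

theorem dense_blocks_perturbed {n : ℕ} (a : Fin n → ℝ)
    (hadm : ∀ x ∈ Fintype.piFinset (fun _ : Fin n => Finset.Icc (-1 : ℤ) 1),
      ∑ i, a i * (x i : ℝ) = 0 → x = 0)
    {J : Type*} [Fintype J] [DecidableEq J] (c : Fin n → J) (b : J → ℝ) (D : Fin n → ℤ)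
    {M : ℕ} (g : Fin M → ℝ) (u : Fin n → Fin M → ℤ)
    (h0 : ∀ k, D k ≠ 0) (ha : ∀ k, a k = b (c k) * D k + ∑ m, (u k m : ℝ) * g m)
    (hv : ∀ k k', c k = c k' → padicValInt 2 (D k) = padicValInt 2 (D k') → k = k')
    {β : ℝ} (hβ : IsGreatest {z : ℝ | z ^ 8 - 8 * z ^ 6 + 10 * z ^ 4 + 1 = 0} β) (T : ℝ) :
    (((Fintype.piFinset (fun _ : Fin n => Finset.Icc (-2 : ℤ) 2)).filter
      (fun x => ∑ i, a i * (x i : ℝ) = T)).card : ℝ) ≤
      β ^ n * (∏ j ∈ univ.image c, (9 / 2 * (∑ k with c k = j, |(D k : ℝ)|) /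
        2 ^ (univ.filter (fun k => c k = j)).card)) * ∏ m, (5 * ∑ k, |(u k m : ℝ)| + 1) := by
  classical
  have h5 := root_ge hβ
  have hq := quartic_of_octic h5 hβ.1
  -- the fibres
  set l : J → ℕ := fun j => (univ.filter (fun k => c k = j)).card with hl
  have hcard : ∀ j, Fintype.card {k // c k = j} = l j := by
    intro j
    rw [Fintype.card_subtype]
  set e : (Σ j, Fin (l j)) ≃ Fin n :=
    (Equiv.sigmaCongrRight (fun j => (Fintype.equivFinOfCardEq (hcard j)).symm)).trans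
      (Equiv.sigmaFiberEquiv c) with he
  have hce : ∀ j i, c (e ⟨j, i⟩) = j := by
    intro j i
    exact ((Fintype.equivFinOfCardEq (hcard j)).symm i).2
  set D' : ∀ j, Fin (l j) → ℤ := fun j i => D (e ⟨j, i⟩) with hD'
  have hinj : ∀ j, Function.Injective (fun i => padicValInt 2 (D' j i)) := by
    intro j i i' h
    have h1 := hv (e ⟨j, i⟩) (e ⟨j, i'⟩) (by rw [hce, hce]) h
    have h2 := e.injective h1
    exact eq_of_heq (Sigma.mk.inj h2).2
  -- covers
  have hZ : ∀ j, ∃ Z : Finset ℤ, (∀ x : Fin (l j) → ℤ, (∀ i, -2 ≤ x i ∧ x i ≤ 2) → ∃ z ∈ Z,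
      ∃ ε : Fin (l j) → ℤ, (∀ i, 0 ≤ ε i ∧ ε i ≤ 1) ∧
        ∑ i, D' j i * x i = z + ∑ i, D' j i * ε i) ∧
      (0 < l j → (Z.card : ℤ) * 2 ^ (l j) ≤ 9 * ∑ i, |D' j i|) ∧ (l j = 0 → Z.card = 1) := by
    intro j
    rcases Nat.eq_zero_or_pos (l j) with h | h
    · refine ⟨{0}, ?_, fun h' => absurd h' (by omega), fun _ => card_singleton _⟩
      intro x _
      refine ⟨0, mem_singleton_self _, fun _ => 0, fun _ => by norm_num, ?_⟩
      have : IsEmpty (Fin (l j)) := by rw [h]; infer_instance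
      simp
    · obtain ⟨Z, h1, h2⟩ := dense_cover h (D' j) (fun i => h0 _) (hinj j)
      exact ⟨Z, h1, fun _ => h2, fun h' => absurd h (by omega)⟩
  choose Z hZ1 hZ2 hZ3 using hZ
  have hN : ∀ j T, secCount (D' j) T ≤ (if l j = 0 then 1 else Q (l j)) := by
    intro j T
    split_ifs with h
    · have : IsEmpty (Fin (l j)) := by rw [h]; infer_instance
      unfold secCount
      refine (card_le_card (filter_subset _ _)).trans ?_
      rw [Fintype.card_piFinset]
      simp
    · rw [secCount_eq]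
      exact cnt_le_triangular (by omega) (triangular_of_injective _ (fun i => h0 _) (hinj j)) T
  have key := blocks_le2 a hadm l D' b e g u (fun j i => by rw [ha, hce]) Z hZ1 _ hN T
  have hnat : ∀ m, (5 * ∑ k, |(u k m : ℝ)| + 1) = ((5 * ∑ k, (u k m).natAbs + 1 : ℕ) : ℝ) := by
    intro m
    push_cast
    simp only [Nat.cast_natAbs, Int.cast_abs]
  have key' : (((Fintype.piFinset (fun _ : Fin n => Finset.Icc (-2 : ℤ) 2)).filter
      (fun x => ∑ i, a i * (x i : ℝ) = T)).card : ℝ) ≤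
      (∏ j, (((if l j = 0 then 1 else Q (l j) : ℕ) : ℝ) * ((Z j).card : ℝ))) *
        ∏ m, (5 * ∑ k, |(u k m : ℝ)| + 1) := by
    rw [prod_mul_distrib, mul_assoc]
    simp only [hnat]
    exact_mod_cast key
  refine key'.trans ?_
  apply mul_le_mul_of_nonneg_right _ (prod_nonneg fun m _ => by positivity)
  -- the factors
  have hsumD : ∀ j, (∑ k with c k = j, |(D k : ℝ)|) = ((∑ i, |D' j i| : ℤ) : ℝ) := by
    intro j
    push_cast
    rw [sum_subtype (univ.filter (fun k => c k = j)) (p := fun k => c k = j)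
      (fun x => by simp) (fun k => |(D k : ℝ)|)]
    exact ((Fintype.equivFinOfCardEq (hcard j)).symm.sum_comp
      (fun x : {k // c k = j} => |(D x.1 : ℝ)|)).symm
  have hsuml : ∑ j, l j = n := by
    have h1 := Fintype.card_congr e
    rw [Fintype.card_sigma, Fintype.card_fin] at h1
    simpa using h1
  have hβ0 : 0 < β := by linarith
  have hmem : ∀ j, j ∈ univ.image c ↔ l j ≠ 0 := by
    intro j
    rw [hl]
    simp only [mem_image, mem_univ, true_and, ne_eq, card_eq_zero, filter_eq_empty_iff, not_forall,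
      not_not]
    constructor
    · rintro ⟨k, hk⟩; exact ⟨k, trivial, hk⟩
    · rintro ⟨k, _, hk⟩; exact ⟨k, hk⟩
  rw [show β ^ n = ∏ j, β ^ l j by rw [prod_pow_eq_pow_sum, hsuml]]
  rw [show ∏ j ∈ univ.image c, (9 / 2 * (∑ k with c k = j, |(D k : ℝ)|) /
        2 ^ (univ.filter (fun k => c k = j)).card) = ∏ j, (if l j = 0 then 1 else
        (9 / 2 * (∑ k with c k = j, |(D k : ℝ)|) / 2 ^ l j)) by
      rw [← prod_subset (subset_univ (univ.image c))]
      · apply prod_congr rfl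
        intro j hj
        rw [if_neg ((hmem j).mp hj)]
      · intro j _ hj
        rw [hmem, not_not] at hj
        rw [if_pos hj]]
  rw [← prod_mul_distrib]
  apply prod_le_prod
  · intro j _; positivity
  · intro j _
    split_ifs with h
    · rw [h, hZ3 j h]; simp
    · have hpos : 0 < l j := by omega
      have h1 := two_Q_le h5 hq (l j) hpos
      have h2 := hZ2 j hpos
      have h3 : ((Z j).card : ℝ) * 2 ^ l j ≤ 9 * ((∑ i, |D' j i| : ℤ) : ℝ) := by exact_mod_cast h2
      rw [hsumD j]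
      have h4 : (0 : ℝ) < 2 ^ l j := by positivity
      have h6 : ((Z j).card : ℝ) ≤ 9 * ((∑ i, |D' j i| : ℤ) : ℝ) / 2 ^ l j := by
        rw [le_div_iff₀ h4]; exact h3
      have h7 : (0 : ℝ) ≤ ((Z j).card : ℝ) := by positivity
      calc (Q (l j) : ℝ) * ((Z j).card : ℝ) ≤ (β ^ l j / 2) * ((Z j).card : ℝ) :=
            mul_le_mul_of_nonneg_right (by linarith) h7
        _ ≤ (β ^ l j / 2) * (9 * ((∑ i, |D' j i| : ℤ) : ℝ) / 2 ^ l j) :=
            mul_le_mul_of_nonneg_left h6 (by positivity)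
        _ = β ^ l j * (9 / 2 * ((∑ i, |D' j i| : ℤ) : ℝ) / 2 ^ l j) := by ring

end Pool.Agent.Helper19.Blocks
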