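import Pool.Agent.Helper19.Blocks.Growth

/-!
# Sharp explicit bounds for the extremal sequences
-/

namespace Pool.Agent.Helper19.Blocks

open Pool.Agent.Helper23.Hyper

theorem root_bounds2 {β : ℝ} (hβ : 5 / 2 ≤ β)
    (h4 : β ^ 4 = 2 * β ^ 3 + 2 * β ^ 2 - 2 * β + 1) : 25386 / 10000 < β ∧ β < 25387 / 10000 := by
  constructor
  · by_contra h
    have h1 := quartic_sub (25386 / 10000) β
    have h2 := factor_pos (x := 25386 / 10000) (y := β) (by norm_num) hβ
    have h3 := mul_nonneg (sub_nonneg.mpr (not_lt.mp h)) h2.le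
    rw [← h1] at h3
    norm_num at h3
    linarith
  · by_contra h
    have h1 := quartic_sub β (25387 / 10000)
    have h2 := factor_pos (x := β) (y := 25387 / 10000) hβ (by norm_num)
    have h3 := mul_nonneg (sub_nonneg.mpr (not_lt.mp h)) h2.le
    rw [← h1] at h3
    norm_num at h3
    linarith

section

variable {β : ℝ} (hβ : 5 / 2 ≤ β) (h4 : β ^ 4 = 2 * β ^ 3 + 2 * β ^ 2 - 2 * β + 1)

include hβ h4

theorem pow_lower (k : ℕ) : (25386 / 10000 : ℝ) ^ k ≤ β ^ k :=
  pow_le_pow_left₀ (by norm_num) (root_bounds2 hβ h4).1.le k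

theorem cone2 (m : ℕ) :
    (P (m + 8) : ℝ) ≤ 3139 / 10000 * β ^ (m + 8) ∧
    (Q (m + 8) : ℝ) ≤ 3139 / 10000 * (β ^ (m + 8) * (β - 1)) ∧
    (R (m + 8) : ℝ) ≤ 3139 / 10000 * (β ^ (m + 8) * (β ^ 2 - 2 * β)) ∧
    (S (m + 8) : ℝ) ≤ 3139 / 10000 * (β ^ (m + 8) * (β ^ 3 - 2 * β ^ 2 - β)) := by
  obtain ⟨hl, hu⟩ := root_bounds2 hβ h4
  induction m with
  | zero =>
    have e1 : P (0 + 8) = 541 := by decide
    have e2 : Q (0 + 8) = 832 := by decide
    have e3 : R (0 + 8) = 740 := by decide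
    have e4 : S (0 + 8) = 504 := by decide
    rw [e1, e2, e3, e4]
    have h8 := pow_lower hβ h4 8
    have v1 : (15386 : ℝ) / 10000 ≤ β - 1 := by linarith
    have v2 : (25386 / 10000 * (5386 / 10000) : ℝ) ≤ β ^ 2 - 2 * β := by
      have : β ^ 2 - 2 * β = β * (β - 2) := by ring
      rw [this]
      exact mul_le_mul hl.le (by linarith) (by norm_num) (by linarith)
    have v3 : (25386 / 10000 * (25386 / 10000 * (5386 / 10000) - 1) : ℝ) ≤
        β ^ 3 - 2 * β ^ 2 - β := by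
      have : β ^ 3 - 2 * β ^ 2 - β = β * (β ^ 2 - 2 * β - 1) := by ring
      rw [this]
      exact mul_le_mul hl.le (by linarith) (by norm_num) (by linarith)
    have w1 := mul_le_mul h8 v1 (by norm_num) (by positivity)
    have w2 := mul_le_mul h8 v2 (by norm_num) (by positivity)
    have w3 := mul_le_mul h8 v3 (by norm_num) (by positivity)
    norm_num at h8 w1 w2 w3
    push_cast
    refine ⟨?_, ?_, ?_, ?_⟩
    · linarith
    · linarith
    · linarith
    · linarith
  | succ m ih =>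
    obtain ⟨i1, i2, i3, i4⟩ := ih
    rw [show m + 1 + 8 = m + 8 + 1 by ring, P_succ (m + 8), Q_succ (m + 8), R_succ (m + 8),
      S_succ (m + 8), pow_succ]
    push_cast
    have hS : 1 + (β ^ 2 - 2 * β) = β * (β ^ 3 - 2 * β ^ 2 - β) := by nlinarith
    generalize β ^ (m + 8) = X at i1 i2 i3 i4 ⊢
    refine ⟨?_, ?_, ?_, ?_⟩
    · calc (P (m + 8) : ℝ) + Q (m + 8) ≤ 3139 / 10000 * X + 3139 / 10000 * (X * (β - 1)) :=
          add_le_add i1 i2
        _ = 3139 / 10000 * (X * β) := by ring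
    · calc (P (m + 8) : ℝ) + Q (m + 8) + R (m + 8) ≤ 3139 / 10000 * X +
            3139 / 10000 * (X * (β - 1)) + 3139 / 10000 * (X * (β ^ 2 - 2 * β)) :=
          add_le_add (add_le_add i1 i2) i3
        _ = 3139 / 10000 * (X * β * (β - 1)) := by ring
    · calc (P (m + 8) : ℝ) + Q (m + 8) + S (m + 8) ≤ 3139 / 10000 * X +
            3139 / 10000 * (X * (β - 1)) + 3139 / 10000 * (X * (β ^ 3 - 2 * β ^ 2 - β)) :=
          add_le_add (add_le_add i1 i2) i4
        _ = 3139 / 10000 * (X * β * (β ^ 2 - 2 * β)) := by ring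
    · calc (P (m + 8) : ℝ) + R (m + 8) ≤ 3139 / 10000 * X +
            3139 / 10000 * (X * (β ^ 2 - 2 * β)) := add_le_add i1 i3
        _ = 3139 / 10000 * (X * (1 + (β ^ 2 - 2 * β))) := by ring
        _ = 3139 / 10000 * (X * β * (β ^ 3 - 2 * β ^ 2 - β)) := by rw [hS]; ring

/-- `P n ≤ 0.3139 β^n` for `n ≥ 2`. -/
theorem P_le (n : ℕ) (hn : 2 ≤ n) : (P n : ℝ) ≤ 3139 / 10000 * β ^ n := by
  rcases Nat.lt_or_ge n 8 with h | h
  · have hp := pow_lower hβ h4 n
    have h1 : (P n : ℝ) ≤ 3139 / 10000 * (25386 / 10000 : ℝ) ^ n := by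
      have e2 : P 2 = 2 := by decide
      have e3 : P 3 = 5 := by decide
      have e4 : P 4 = 13 := by decide
      have e5 : P 5 = 33 := by decide
      have e6 : P 6 = 84 := by decide
      have e7 : P 7 = 213 := by decide
      interval_cases n
      · rw [e2]; norm_num
      · rw [e3]; norm_num
      · rw [e4]; norm_num
      · rw [e5]; norm_num
      · rw [e6]; norm_num
      · rw [e7]; norm_num
    linarith
  · obtain ⟨m, rfl⟩ : ∃ m, n = m + 8 := ⟨n - 8, by omega⟩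
    exact (cone2 hβ h4 m).1

/-- `Q n ≤ 0.4830 β^n` for `n ≥ 6`. -/
theorem Q_le_six (n : ℕ) (hn : 6 ≤ n) : (Q n : ℝ) ≤ 4830 / 10000 * β ^ n := by
  rcases Nat.lt_or_ge n 8 with h | h
  · have hp := pow_lower hβ h4 n
    have h1 : (Q n : ℝ) ≤ 4830 / 10000 * (25386 / 10000 : ℝ) ^ n := by
      have e6 : Q 6 = 129 := by decide
      have e7 : Q 7 = 328 := by decide
      interval_cases n
      · rw [e6]; norm_num
      · rw [e7]; norm_num
    linarith
  · obtain ⟨m, rfl⟩ : ∃ m, n = m + 8 := ⟨n - 8, by omega⟩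
    have h1 := (cone2 hβ h4 m).2.1
    have h2 := (root_bounds2 hβ h4).2
    have h3 : 0 < β ^ (m + 8) := by positivity
    nlinarith

/-- `Q n ≤ 0.4838 β^n` for `n ≥ 4`. -/
theorem Q_le_four (n : ℕ) (hn : 4 ≤ n) : (Q n : ℝ) ≤ 4838 / 10000 * β ^ n := by
  rcases Nat.lt_or_ge n 6 with h | h
  · have hp := pow_lower hβ h4 n
    have h1 : (Q n : ℝ) ≤ 4838 / 10000 * (25386 / 10000 : ℝ) ^ n := by
      have e4 : Q 4 = 20 := by decide
      have e5 : Q 5 = 51 := by decide
      interval_cases n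
      · rw [e4]; norm_num
      · rw [e5]; norm_num
    linarith
  · have h1 := Q_le_six hβ h4 n h
    have h3 : 0 < β ^ n := by positivity
    linarith

/-- `Q n ≤ 0.4891 β^n` for `n ≥ 2`. -/
theorem Q_le_two (n : ℕ) (hn : 2 ≤ n) : (Q n : ℝ) ≤ 4891 / 10000 * β ^ n := by
  rcases Nat.lt_or_ge n 4 with h | h
  · have hp := pow_lower hβ h4 n
    have h1 : (Q n : ℝ) ≤ 4891 / 10000 * (25386 / 10000 : ℝ) ^ n := by
      have e2 : Q 2 = 3 := by decide
      have e3 : Q 3 = 8 := by decide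
      interval_cases n
      · rw [e2]; norm_num
      · rw [e3]; norm_num
    linarith
  · have h1 := Q_le_four hβ h4 n h
    have h3 : 0 < β ^ n := by positivity
    linarith

end

end Pool.Agent.Helper19.Blocks
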