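import Pool.Agent.Helper23.Hyper.Bridge
import Pool.Agent.Helper23.Hyper.Perron

/-!
# Admissible vectors without doublings and with many points on the hyperplane
-/

open Finset

namespace Pool.Agent.Helper19.Blocks

open Pool.Agent.Helper23.Hyper

theorem sqrt_two_indep (p q : ℤ) (h : (p : ℝ) * √2 + q = 0) : p = 0 ∧ q = 0 := by
  have hp : p = 0 := by
    by_contra hp
    have hp' : (p : ℝ) ≠ 0 := by exact_mod_cast hp
    apply irrational_sqrt_two
    refine ⟨-(q : ℚ) / p, ?_⟩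
    push_cast
    field_simp
    linarith
  subst hp
  refine ⟨rfl, ?_⟩
  have : (q : ℝ) = 0 := by simpa using h
  exact_mod_cast this

theorem jac_ge : ∀ m : ℕ, 3 ≤ jac (m + 3) := by
  intro m
  induction m with
  | zero => decide
  | succ m ih =>
    show 3 ≤ 2 * jac (m + 3) + (-1) ^ (m + 3)
    rcases neg_one_pow_eq_or ℤ (m + 3) with h | h <;> rw [h] <;> omega

/-- The relation part of the perturbed vectors. -/
theorem special_zero (m : ℕ) (x0 : ℤ) (y : Fin (m + 1) → ℤ) (h0 : -1 ≤ x0 ∧ x0 ≤ 1)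
    (hy : ∀ i, -1 ≤ y i ∧ y i ≤ 1)
    (h : x0 * jac (m + 1) + ∑ i, y i * (2 * 2 ^ (i : ℕ)) = 0) : x0 = 0 ∧ ∀ i, y i = 0 := by
  have hadm := (special_triangular m).admissible
  have := hadm (Fin.cons x0 y) (by
    rw [Fintype.mem_piFinset]
    intro i
    rw [mem_Icc]
    refine Fin.cases ?_ (fun i => ?_) i
    · simpa using h0
    · simpa using hy i) (by
    rw [Fin.sum_univ_succ]
    simp only [special, Fin.cons_zero, Fin.cons_succ]
    rw [← h, mul_comm]
    congr 1
    apply sum_congr rfl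
    intro i _
    ring)
  constructor
  · have h1 := congrFun this 0
    simpa using h1
  · intro i
    have h1 := congrFun this i.succ
    simpa using h1

/-- The vector of the lower bound: a chain translated by `√2`, and one more entry. -/
noncomputable def vec (m : ℕ) (s : ℤ) : Fin (m + 2) → ℝ :=
  Fin.cons ((s : ℝ) * √2 / 2 + jac (m + 1)) (fun i : Fin (m + 1) => √2 + 2 * 2 ^ (i : ℕ))

theorem sum_vec (m : ℕ) (s : ℤ) (x0 : ℤ) (y : Fin (m + 1) → ℤ) :
    2 * ∑ i, vec m s i * ((Fin.cons x0 y : Fin (m + 2) → ℤ) i : ℝ) =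
      ((x0 * s + 2 * ∑ i, y i : ℤ) : ℝ) * √2 +
        ((2 * (x0 * jac (m + 1) + ∑ i, y i * (2 * 2 ^ (i : ℕ))) : ℤ) : ℝ) := by
  rw [Fin.sum_univ_succ]
  simp only [vec, Fin.cons_zero, Fin.cons_succ]
  push_cast
  have h1 : ∑ i : Fin (m + 1), (√2 + 2 * 2 ^ (i : ℕ)) * (y i : ℝ) =
      √2 * ∑ i, (y i : ℝ) + ∑ i : Fin (m + 1), (y i : ℝ) * (2 * 2 ^ (i : ℕ)) := by
    rw [mul_sum, ← sum_add_distrib]
    apply sum_congr rfl
    intro i _
    ring
  rw [h1]
  ring

theorem vec_admissible (m : ℕ) (s : ℤ) :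
    ∀ x ∈ Fintype.piFinset (fun _ : Fin (m + 2) => Finset.Icc (-1 : ℤ) 1),
      ∑ i, vec m s i * (x i : ℝ) = 0 → x = 0 := by
  intro x hx hs
  obtain ⟨x0, y, rfl⟩ : ∃ x0 y, x = Fin.cons x0 y := ⟨x 0, Fin.tail x, (Fin.cons_self_tail x).symm⟩
  have hb : ∀ i, -1 ≤ (Fin.cons x0 y : Fin (m + 2) → ℤ) i ∧
      (Fin.cons x0 y : Fin (m + 2) → ℤ) i ≤ 1 := by
    intro i
    have := Fintype.mem_piFinset.mp hx i
    rwa [mem_Icc] at this
  have h1 := sum_vec m s x0 y
  rw [hs, mul_zero] at h1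
  obtain ⟨-, h2⟩ := sqrt_two_indep _ _ h1.symm
  have h3 : x0 * jac (m + 1) + ∑ i, y i * (2 * 2 ^ (i : ℕ)) = 0 := by omega
  have h4 := special_zero m x0 y (by simpa using hb 0) (fun i => by simpa using hb i.succ) h3
  funext i
  refine Fin.cases ?_ (fun i => ?_) i
  · simpa using h4.1
  · simpa using h4.2 i

/-- The points on the hyperplane. -/
theorem vec_count (m : ℕ) : ∃ s : ℤ, P (m + 1) ≤ (4 * (m + 1) + 1) *
    ((Fintype.piFinset (fun _ : Fin (m + 2) => Finset.Icc (-2 : ℤ) 2)).filter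
      (fun x => ∑ i, vec m s i * (x i : ℝ) = 0)).card := by
  classical
  set Y := (Fintype.piFinset (fun _ : Fin (m + 1) => Finset.Icc (-2 : ℤ) 2)).filter
    (fun y => ∑ i : Fin (m + 1), (2 : ℤ) ^ (i : ℕ) * y i = jac (m + 1)) with hY
  have hYc : Y.card = P (m + 1) := by
    have h1 := secCount_eq (fun i : Fin (m + 1) => (2 : ℤ) ^ (i : ℕ)) (jac (m + 1))
    rw [ofFn_pows, (pows_values (m + 1)).1] at h1
    exact h1
  have hmaps : ∀ y ∈ Y, ∑ i, y i ∈ Icc (-(2 * ((m : ℤ) + 1))) (2 * ((m : ℤ) + 1)) := by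
    intro y hy
    rw [hY, mem_filter, Fintype.mem_piFinset] at hy
    have h1 : ∀ i, -2 ≤ y i ∧ y i ≤ 2 := fun i => by
      have := hy.1 i
      rwa [mem_Icc] at this
    rw [mem_Icc]
    constructor
    · have := sum_le_sum (fun i (_ : i ∈ (univ : Finset (Fin (m + 1)))) => (h1 i).1)
      simp only [sum_const, card_univ, Fintype.card_fin, nsmul_eq_mul] at this
      push_cast at this
      linarith
    · have := sum_le_sum (fun i (_ : i ∈ (univ : Finset (Fin (m + 1)))) => (h1 i).2)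
      simp only [sum_const, card_univ, Fintype.card_fin, nsmul_eq_mul] at this
      push_cast at this
      linarith
  have hne : (Icc (-(2 * ((m : ℤ) + 1))) (2 * ((m : ℤ) + 1))).Nonempty :=
    ⟨0, by rw [mem_Icc]; constructor <;> [linarith [Int.natCast_nonneg m]; positivity]⟩
  obtain ⟨s, -, hs⟩ := exists_max_image (Icc (-(2 * ((m : ℤ) + 1))) (2 * ((m : ℤ) + 1)))
    (fun s => (Y.filter (fun y => ∑ i, y i = s)).card) hne
  refine ⟨s, ?_⟩
  have h1 : Y.card ≤ (Y.filter (fun y => ∑ i, y i = s)).card *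
      (Icc (-(2 * ((m : ℤ) + 1))) (2 * ((m : ℤ) + 1))).card :=
    card_le_mul_card_image_of_maps_to (f := fun y => ∑ i, y i) hmaps _ hs
  have h2 : (Icc (-(2 * ((m : ℤ) + 1))) (2 * ((m : ℤ) + 1))).card = 4 * (m + 1) + 1 := by
    rw [Int.card_Icc]
    omega
  rw [← hYc, mul_comm]
  refine h1.trans ?_
  rw [h2]
  apply Nat.mul_le_mul_right
  apply card_le_card_of_injOn (fun y => (Fin.cons 2 (fun i => -y i) : Fin (m + 2) → ℤ))
  · intro y hy
    rw [mem_coe, mem_filter, hY, mem_filter, Fintype.mem_piFinset] at hy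
    obtain ⟨⟨hy1, hy2⟩, hy3⟩ := hy
    rw [mem_coe, mem_filter, Fintype.mem_piFinset]
    constructor
    · intro i
      refine Fin.cases ?_ (fun i => ?_) i
      · simp
      · have := hy1 i
        simp only [Fin.cons_succ, mem_Icc] at this ⊢
        omega
    · have h3 := sum_vec m s 2 (fun i => -y i)
      have e1 : (2 : ℤ) * s + 2 * ∑ i, -y i = 0 := by
        rw [sum_neg_distrib, hy3]; ring
      have e2 : (2 : ℤ) * (2 * jac (m + 1) +
          ∑ i : Fin (m + 1), -y i * (2 * 2 ^ (i : ℕ))) = 0 := by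
        have : ∑ i : Fin (m + 1), -y i * (2 * 2 ^ (i : ℕ)) =
            -(2 * ∑ i : Fin (m + 1), (2 : ℤ) ^ (i : ℕ) * y i) := by
          rw [mul_sum, ← sum_neg_distrib]
          apply sum_congr rfl
          intro i _
          ring
        rw [this, hy2]; ring
      rw [e1, e2] at h3
      simp only [Int.cast_zero, zero_mul, add_zero] at h3
      linarith
  · intro y _ y' _ h
    funext i
    have := congrFun h i.succ
    simp only [Fin.cons_succ] at this
    linarith

/-- No entry is twice another one, up to sign. -/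
theorem vec_no_double (m : ℕ) (s : ℤ) (i j : Fin (m + 4)) :
    vec (m + 2) s i ≠ 2 * vec (m + 2) s j ∧ vec (m + 2) s i ≠ -(2 * vec (m + 2) s j) := by
  have hJ := jac_ge m
  have hodd : jac (m + 3) % 2 = 1 := jac_odd (m + 2)
  have h2k : ∀ k : ℕ, (2 : ℤ) ^ k = 1 ∨ (2 : ℤ) ^ k % 2 = 0 := by
    intro k
    rcases k with _ | k
    · left; simp
    · right; rw [pow_succ]; omega
  have key : ∀ σ : ℤ, (σ = 1 ∨ σ = -1) → vec (m + 2) s i ≠ σ * (2 * vec (m + 2) s j) := by
    intro σ hσ h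
    refine Fin.cases (fun h => ?_) (fun i h => ?_) i h
    · refine Fin.cases (fun h => ?_) (fun j h => ?_) j h
      · simp only [vec, Fin.cons_zero] at h
        have h1 : ((s - σ * 2 * s : ℤ) : ℝ) * √2 +
            ((2 * jac (m + 3) - σ * 4 * jac (m + 3) : ℤ) : ℝ) = 0 := by
          push_cast
          linarith
        have h2 := (sqrt_two_indep _ _ h1).2
        rcases hσ with rfl | rfl <;> omega
      · simp only [vec, Fin.cons_zero, Fin.cons_succ] at h
        have h1 : ((s - σ * 4 : ℤ) : ℝ) * √2 +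
            ((2 * jac (m + 3) - σ * 4 * (2 * 2 ^ (j : ℕ)) : ℤ) : ℝ) = 0 := by
          push_cast
          linarith
        have h2 := (sqrt_two_indep _ _ h1).2
        rcases hσ with rfl | rfl <;> omega
    · refine Fin.cases (fun h => ?_) (fun j h => ?_) j h
      · simp only [vec, Fin.cons_zero, Fin.cons_succ] at h
        have h1 : ((1 - σ * s : ℤ) : ℝ) * √2 +
            ((2 * 2 ^ (i : ℕ) - σ * 2 * jac (m + 3) : ℤ) : ℝ) = 0 := by
          push_cast
          linarith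
        have h2 := (sqrt_two_indep _ _ h1).2
        rcases h2k i with h3 | h3
        · rw [h3] at h2
          rcases hσ with rfl | rfl <;> omega
        · generalize (2 : ℤ) ^ (i : ℕ) = w at h2 h3
          rcases hσ with rfl | rfl <;> omega
      · simp only [vec, Fin.cons_succ] at h
        have h1 : ((1 - σ * 2 : ℤ) : ℝ) * √2 +
            ((2 * 2 ^ (i : ℕ) - σ * 2 * (2 * 2 ^ (j : ℕ)) : ℤ) : ℝ) = 0 := by
          push_cast
          linarith
        have h2 := (sqrt_two_indep _ _ h1).1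
        rcases hσ with rfl | rfl <;> omega
  constructor
  · have := key 1 (Or.inl rfl)
    simpa using this
  · have := key (-1) (Or.inr rfl)
    push_cast at this
    rwa [neg_one_mul] at this

/-- The translated chain alone, for small dimensions. -/
noncomputable def chainVec (n : ℕ) : Fin n → ℝ := fun i => √2 + 2 * 2 ^ (i : ℕ)

theorem chainVec_admissible (m : ℕ) :
    ∀ x ∈ Fintype.piFinset (fun _ : Fin (m + 1) => Finset.Icc (-1 : ℤ) 1),
      ∑ i, chainVec (m + 1) i * (x i : ℝ) = 0 → x = 0 := by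
  intro x hx hs
  have hb : ∀ i, -1 ≤ x i ∧ x i ≤ 1 := by
    intro i
    have := Fintype.mem_piFinset.mp hx i
    rwa [mem_Icc] at this
  have h1 : ((∑ i, x i : ℤ) : ℝ) * √2 +
      ((∑ i : Fin (m + 1), x i * (2 * 2 ^ (i : ℕ)) : ℤ) : ℝ) = 0 := by
    rw [← hs]
    push_cast
    rw [sum_mul, ← sum_add_distrib]
    apply sum_congr rfl
    intro i _
    simp only [chainVec]
    ring
  have h2 := (sqrt_two_indep _ _ h1).2
  have h3 := special_zero m 0 x ⟨by norm_num, by norm_num⟩ hb (by rw [zero_mul, zero_add]; exact h2)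
  funext i
  exact h3.2 i

theorem chainVec_no_double (n : ℕ) (i j : Fin n) :
    chainVec n i ≠ 2 * chainVec n j ∧ chainVec n i ≠ -(2 * chainVec n j) := by
  constructor
  · intro h
    simp only [chainVec] at h
    have h1 : ((1 - 2 : ℤ) : ℝ) * √2 + ((2 * 2 ^ (i : ℕ) - 2 * (2 * 2 ^ (j : ℕ)) : ℤ) : ℝ) = 0 := by
      push_cast
      linarith
    have := (sqrt_two_indep _ _ h1).1
    norm_num at this
  · intro h
    simp only [chainVec] at h
    have h1 : ((1 + 2 : ℤ) : ℝ) * √2 + ((2 * 2 ^ (i : ℕ) + 2 * (2 * 2 ^ (j : ℕ)) : ℤ) : ℝ) = 0 := by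
      push_cast
      linarith
    have := (sqrt_two_indep _ _ h1).1
    norm_num at this

/-- The lower bound in all dimensions. -/
theorem no_double_lower {β : ℝ} (hβ : 5 / 2 ≤ β)
    (h4 : β ^ 4 = 2 * β ^ 3 + 2 * β ^ 2 - 2 * β + 1) :
    ∃ c : ℝ, 0 < c ∧ ∀ n : ℕ, 1 ≤ n → ∃ a : Fin n → ℝ,
      (∀ x ∈ Fintype.piFinset (fun _ : Fin n => Finset.Icc (-1 : ℤ) 1),
        ∑ i, a i * (x i : ℝ) = 0 → x = 0) ∧
      (∀ i j, a i ≠ 2 * a j ∧ a i ≠ -(2 * a j)) ∧
      c * β ^ n / n ≤ (((Fintype.piFinset (fun _ : Fin n => Finset.Icc (-2 : ℤ) 2)).filter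
        (fun x => ∑ i, a i * (x i : ℝ) = 0)).card : ℝ) := by
  obtain ⟨L, -, -, c, hc, hP⟩ := perron hβ h4
  have hβ0 : 0 < β := by linarith
  refine ⟨min (c / (5 * β)) (1 / β ^ 3), lt_min (by positivity) (by positivity), ?_⟩
  intro n hn
  rcases Nat.lt_or_ge n 4 with h | h
  · obtain ⟨m, rfl⟩ : ∃ m, n = m + 1 := ⟨n - 1, by omega⟩
    refine ⟨chainVec (m + 1), chainVec_admissible m, chainVec_no_double _, ?_⟩
    have h1 : 1 ≤ ((Fintype.piFinset (fun _ : Fin (m + 1) => Finset.Icc (-2 : ℤ) 2)).filter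
        (fun x => ∑ i, chainVec (m + 1) i * (x i : ℝ) = 0)).card := by
      rw [Nat.one_le_iff_ne_zero, ← Nat.pos_iff_ne_zero, card_pos]
      refine ⟨0, ?_⟩
      rw [mem_filter, Fintype.mem_piFinset]
      exact ⟨fun i => by simp, by simp⟩
    have h2 : (1 : ℝ) ≤ (((Fintype.piFinset (fun _ : Fin (m + 1) => Finset.Icc (-2 : ℤ) 2)).filter
        (fun x => ∑ i, chainVec (m + 1) i * (x i : ℝ) = 0)).card : ℝ) := by exact_mod_cast h1
    refine le_trans ?_ h2
    have hn1 : (1 : ℝ) ≤ ((m + 1 : ℕ) : ℝ) := by exact_mod_cast hn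
    have h3 : β ^ (m + 1) ≤ β ^ 3 := pow_le_pow_right₀ (by linarith) (by omega)
    have h5 : min (c / (5 * β)) (1 / β ^ 3) * β ^ (m + 1) ≤ 1 := by
      calc min (c / (5 * β)) (1 / β ^ 3) * β ^ (m + 1) ≤ 1 / β ^ 3 * β ^ (m + 1) :=
            mul_le_mul_of_nonneg_right (min_le_right _ _) (by positivity)
        _ ≤ 1 / β ^ 3 * β ^ 3 := mul_le_mul_of_nonneg_left h3 (by positivity)
        _ = 1 := by field_simp
    rw [div_le_one (by linarith)]
    linarith
  · obtain ⟨m, rfl⟩ : ∃ m, n = m + 4 := ⟨n - 4, by omega⟩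
    obtain ⟨s, hs⟩ := vec_count (m + 2)
    refine ⟨vec (m + 2) s, vec_admissible (m + 2) s, vec_no_double m s, ?_⟩
    set N := ((Fintype.piFinset (fun _ : Fin (m + 4) => Finset.Icc (-2 : ℤ) 2)).filter
        (fun x => ∑ i, vec (m + 2) s i * (x i : ℝ) = 0)).card with hN
    have h1 : (P (m + 3) : ℝ) ≤ (4 * ((m : ℝ) + 3) + 1) * N := by
      have : P (m + 3) ≤ (4 * (m + 2 + 1) + 1) * N := hs
      have h2 : (P (m + 3) : ℝ) ≤ (((4 * (m + 2 + 1) + 1) * N : ℕ) : ℝ) := by exact_mod_cast this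
      push_cast at h2
      linarith
    have h2 := hP (m + 2)
    have hp : 0 < β ^ (m + 3) := by positivity
    have hm : (0 : ℝ) ≤ m := Nat.cast_nonneg m
    have hN0 : (0 : ℝ) ≤ N := Nat.cast_nonneg N
    have h3 : c * β ^ (m + 3) ≤ 5 * ((m : ℝ) + 4) * N := by
      have : (4 * ((m : ℝ) + 3) + 1) * N ≤ 5 * ((m : ℝ) + 4) * N :=
        mul_le_mul_of_nonneg_right (by linarith) hN0
      exact (h2.trans h1).trans this
    have hn0 : (0 : ℝ) < ((m + 4 : ℕ) : ℝ) := by positivity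
    rw [div_le_iff₀ hn0]
    push_cast
    calc min (c / (5 * β)) (1 / β ^ 3) * β ^ (m + 4) ≤ c / (5 * β) * β ^ (m + 4) :=
          mul_le_mul_of_nonneg_right (min_le_left _ _) (by positivity)
      _ = c * β ^ (m + 3) / 5 := by
          rw [show β ^ (m + 4) = β ^ (m + 3) * β by ring]
          field_simp
      _ ≤ (N : ℝ) * ((m : ℝ) + 4) := by
          rw [div_le_iff₀ (by norm_num)]
          linarith

end Pool.Agent.Helper19.Blocks
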