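import Pool.Agent.Helper23.Hyper.Elim
import Pool.Agent.Helper23.Hyper.Perron

/-!
# Splitting a doubling chain, explicit bounds for the extremal sequences
-/

open Finset

namespace Pool.Agent.Helper19.Blocks

open Pool.Agent.Helper23.Hyper

/-- Support of the counting function of a doubling chain. -/
theorem cnt_pows_eq_zero : ∀ (m : ℕ) (z : ℤ), 2 * (2 ^ m - 1) < |z| → cnt (pows m) z = 0 := by
  intro m
  induction m with
  | zero =>
    intro z hz
    have : z ≠ 0 := by
      rintro rfl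
      simp at hz
    simp [pows, cnt, this]
  | succ m ih =>
    intro z hz
    have h2 : (2 : ℤ) ^ (m + 1) = 2 * 2 ^ m := by ring
    have hp : (1 : ℤ) ≤ 2 ^ m := one_le_pow₀ (by norm_num)
    rw [h2] at hz
    rcases Int.emod_two_eq_zero_or_one z with h | h
    · obtain ⟨c, rfl⟩ : ∃ c, z = 2 * c := ⟨z / 2, by omega⟩
      rw [pows_even, ih, ih, ih]
      all_goals
        rcases le_or_gt 0 c with hc | hc
        · rw [abs_of_nonneg (by linarith)] at hz
          rw [lt_abs]; left; linarith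
        · rw [abs_of_neg (by linarith)] at hz
          rw [lt_abs]; right; linarith
    · obtain ⟨c, rfl⟩ : ∃ c, z = 2 * c + 1 := ⟨z / 2, by omega⟩
      rw [pows_odd, ih, ih]
      all_goals
        rcases le_or_gt 0 c with hc | hc
        · rw [abs_of_nonneg (by linarith)] at hz
          rw [lt_abs]; left; omega
        · rw [abs_of_neg (by linarith)] at hz
          rw [lt_abs]; right; omega

/-- Convolution form of the splitting. -/
theorem cnt_pows_conv (S : ℕ) : ∀ (m : ℕ) (t : ℤ), cnt (pows (S + m)) t =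
    ∑ w ∈ Icc (-(2 * 2 ^ S) : ℤ) (2 * 2 ^ S), cnt (pows S) w * cnt (pows m) (t - 2 ^ m * w) := by
  intro m
  induction m with
  | zero =>
    intro t
    by_cases ht : t ∈ Icc (-(2 * 2 ^ S) : ℤ) (2 * 2 ^ S)
    · rw [sum_eq_single_of_mem t ht]
      · simp [pows, cnt]
      · intro w _ hw
        have : t - w ≠ 0 := by intro h; apply hw; linarith
        simp [pows, cnt, this]
    · rw [sum_eq_zero]
      · apply cnt_pows_eq_zero
        rw [Nat.add_zero]
        rw [mem_Icc, not_and_or, not_le, not_le] at ht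
        rcases ht with ht | ht
        · rw [lt_abs]; right; linarith
        · rw [lt_abs]; left; linarith
      · intro w hw
        have : t - w ≠ 0 := by
          intro h
          apply ht
          rwa [show t = w by linarith]
        simp [pows, cnt, this]
  | succ m ih =>
    intro t
    rw [← Nat.add_assoc]
    rcases Int.emod_two_eq_zero_or_one t with h | h
    · obtain ⟨c, rfl⟩ : ∃ c, t = 2 * c := ⟨t / 2, by omega⟩
      rw [pows_even, ih, ih, ih, ← sum_add_distrib, ← sum_add_distrib]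
      apply sum_congr rfl
      intro w _
      rw [show 2 * c - 2 ^ (m + 1) * w = 2 * (c - 2 ^ m * w) by ring, pows_even,
        show c + 1 - 2 ^ m * w = c - 2 ^ m * w + 1 by ring,
        show c - 1 - 2 ^ m * w = c - 2 ^ m * w - 1 by ring]
      ring
    · obtain ⟨c, rfl⟩ : ∃ c, t = 2 * c + 1 := ⟨t / 2, by omega⟩
      rw [pows_odd, ih, ih, ← sum_add_distrib]
      apply sum_congr rfl
      intro w _
      rw [show 2 * c + 1 - 2 ^ (m + 1) * w = 2 * (c - 2 ^ m * w) + 1 by ring, pows_odd,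
        show c + 1 - 2 ^ m * w = c - 2 ^ m * w + 1 by ring]
      ring

/-- **Split lemma.** -/
theorem cnt_pows_split (S m : ℕ) (q ρ : ℤ) (h0 : 0 ≤ ρ) (h1 : ρ < 2 ^ m) :
    cnt (pows (S + m)) (q * 2 ^ m + ρ) =
      cnt (pows S) (q + 2) * cnt (pows m) (ρ - 2 * 2 ^ m) +
      cnt (pows S) (q + 1) * cnt (pows m) (ρ - 2 ^ m) +
      cnt (pows S) q * cnt (pows m) ρ +
      cnt (pows S) (q - 1) * cnt (pows m) (ρ + 2 ^ m) := by
  rw [cnt_pows_conv]
  have hsub : ∀ w : ℤ, w ∉ ({q - 1, q, q + 1, q + 2} : Finset ℤ) →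
      cnt (pows m) (q * 2 ^ m + ρ - 2 ^ m * w) = 0 := by
    intro w hw
    simp only [mem_insert, mem_singleton, not_or] at hw
    obtain ⟨w1, w2, w3, w4⟩ := hw
    have hp : (1 : ℤ) ≤ 2 ^ m := one_le_pow₀ (by norm_num)
    apply cnt_pows_eq_zero
    have e : q * 2 ^ m + ρ - 2 ^ m * w = 2 ^ m * (q - w) + ρ := by ring
    rw [e]
    rcases lt_or_ge w (q - 1) with h | h
    · rw [lt_abs]; left
      nlinarith [mul_le_mul_of_nonneg_left (show (2 : ℤ) ≤ q - w by omega) (by linarith : (0 : ℤ) ≤ 2 ^ m)]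
    · rw [lt_abs]; right
      nlinarith [mul_le_mul_of_nonneg_left (show q - w ≤ (-3 : ℤ) by omega) (by linarith : (0 : ℤ) ≤ 2 ^ m)]
  have hout : ∀ w : ℤ, w ∉ Icc (-(2 * 2 ^ S) : ℤ) (2 * 2 ^ S) → cnt (pows S) w = 0 := by
    intro w hw
    apply cnt_pows_eq_zero
    rw [mem_Icc, not_and_or, not_le, not_le] at hw
    rcases hw with hw | hw
    · rw [lt_abs]; right; linarith
    · rw [lt_abs]; left; linarith
  have h2 : ∑ w ∈ Icc (-(2 * 2 ^ S) : ℤ) (2 * 2 ^ S),
        cnt (pows S) w * cnt (pows m) (q * 2 ^ m + ρ - 2 ^ m * w) =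
      ∑ w ∈ ({q - 1, q, q + 1, q + 2} : Finset ℤ),
        cnt (pows S) w * cnt (pows m) (q * 2 ^ m + ρ - 2 ^ m * w) := by
    have e1 := sum_subset (f := fun w => cnt (pows S) w * cnt (pows m) (q * 2 ^ m + ρ - 2 ^ m * w))
      (subset_union_left (s₁ := Icc (-(2 * 2 ^ S) : ℤ) (2 * 2 ^ S))
        (s₂ := ({q - 1, q, q + 1, q + 2} : Finset ℤ)))
      (fun w _ hw => by simp only [hout w hw, zero_mul])
    have e2 := sum_subset (f := fun w => cnt (pows S) w * cnt (pows m) (q * 2 ^ m + ρ - 2 ^ m * w))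
      (subset_union_right (s₁ := Icc (-(2 * 2 ^ S) : ℤ) (2 * 2 ^ S))
        (s₂ := ({q - 1, q, q + 1, q + 2} : Finset ℤ)))
      (fun w _ hw => by simp only [hsub w hw, mul_zero])
    exact e1.trans e2.symm
  rw [h2, sum_insert, sum_insert, sum_insert, sum_singleton]
  · rw [show q * 2 ^ m + ρ - 2 ^ m * (q - 1) = ρ + 2 ^ m by ring,
      show q * 2 ^ m + ρ - 2 ^ m * q = ρ by ring,
      show q * 2 ^ m + ρ - 2 ^ m * (q + 1) = ρ - 2 ^ m by ring,
      show q * 2 ^ m + ρ - 2 ^ m * (q + 2) = ρ - 2 * 2 ^ m by ring]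
    ring
  · simp
  · simp only [mem_insert, mem_singleton]; omega
  · simp only [mem_insert, mem_singleton]; omega

/-- A doubling chain is good. -/
theorem good_pows : ∀ n : ℕ, Good (n + 1) (cnt (pows (n + 1))) := by
  intro n
  induction n with
  | zero =>
    apply good_one
    intro t
    have : pows (0 + 1) = [1] := by simp [pows]
    rw [this]
    exact cnt_single 1 t one_ne_zero
  | succ n ih => exact good_step_two ih (by norm_num)

theorem cnt_pows_le_Q (n : ℕ) (hn : 1 ≤ n) (y : ℤ) : cnt (pows n) y ≤ Q n := by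
  obtain ⟨m, rfl⟩ : ∃ m, n = m + 1 := ⟨n - 1, by omega⟩
  exact (good_pows m).all y

theorem cnt_pows_le_P (n : ℕ) (hn : 1 ≤ n) (y : ℤ) (hy : y % 2 = 1) : cnt (pows n) y ≤ P n := by
  obtain ⟨m, rfl⟩ : ∃ m, n = m + 1 := ⟨n - 1, by omega⟩
  exact (good_pows m).odd y hy

end Pool.Agent.Helper19.Blocks
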